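import Pool.Agent.Run7.h526.BW.Main

/-!
# The Hilbert function of general fat points outside a window of bounded length

Let `n ≥ 2`, `r ≥ 3 ^ n`, `m ≥ 1`, and put `ρ = r ^ (1 / n)`. The expected value
`min (binom (n + d) n) (r * binom (n + m - 1) n)` changes from its first to its second argument near
`d = ρ * (m + (n - 1) / 2) - (n + 1) / 2`. We show that the Hilbert function `H_{n,r,m}` of `r` general
points of multiplicity `m` in `ℙⁿ` is

* `r * binom (n + m - 1) n` in the degrees `d ≥ ρ * (m + (n - 1) / 2) + 110 * n ^ 2`;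
* `binom (n + d) n` in the degrees `d ≤ ρ * (m + (n - 1) / 2) - 110 * n ^ 2 * (1 + (r / m) ^ (1 / n))`
  and in the degrees `d ≤ ρ * (m - 1 + (n!) ^ (1 / n)) - 110 * n ^ 2`.

So for `m ≥ r` it is known in all degrees but at most `330 * n ^ 2 + 1`, a number which does not depend
on `r` and `m`; the window of the starting result `UniformWindow` has the length `(n - 1) * (ρ + 1)`.

The proof uses points of two sizes. If a finite set of exponents is cut in two parts by a hyperplane,
the conditions of two groups of points are independent (there are no Laurent polynomials) if this is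
so for each group and its part; the points of the second group are moved to infinity. With the toric
degenerations of `TH3.IR` this gives a sharp result for `k₁` points of multiplicity `V₁` and `k₂`
points of multiplicity `V₂ ≥ 2 V₁`, if `k₁` is large. The `r` points are collided to `k₁` clusters of
`t ^ n` points each, `t` of the order of `ρ / 32`, and one cluster of the remaining points, to which
the theorem is applied by induction; the clusters of `t ^ n` points are the starting result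
`PerfectPowers`. So the error of the length is a convergent geometric series.
-/

set_option autoImplicit false

namespace Pool.Agent.Results.MP_b56c98_ag.BoundedWindow

open MvPolynomial
open scoped LinearAlgebra.Projectivization
open Pool.Agent.H350R3.MG

/-- The `m`-th symbolic power of the ideal of the points `P₁, …, P_r`. -/
noncomputable def symbolicPower {n r : ℕ} (m : ℕ) (P : Fin r → ℙ ℂ (Fin (n + 1) → ℂ)) :
    Ideal (MvPolynomial (Fin (n + 1)) ℂ) :=
  ⨅ i, primeIdeal (P i) ^ m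

/-- The Hilbert function `dim R_d - dim J_d` of `R / J`. -/
noncomputable def hilbert {n : ℕ} (J : Ideal (MvPolynomial (Fin (n + 1)) ℂ)) (d : ℕ) : ℤ :=
  (Module.finrank ℂ (homogeneousSubmodule (Fin (n + 1)) ℂ d) : ℤ) -
    Module.finrank ℂ (homogeneousSubmodule (Fin (n + 1)) ℂ d ⊓ Submodule.restrictScalars ℂ J :
      Submodule ℂ (MvPolynomial (Fin (n + 1)) ℂ))

/-- `h` is the value `H_{n,r,m}(d)` of the Hilbert function of `R / I^(m)` for `r` general points:
the value is `h` for all the `r`-tuples of points in a nonempty Zariski open set. -/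
def IsGeneralHilbertValue (n r m d : ℕ) (h : ℤ) : Prop :=
  Generally (fun P : Fin r → ℙ ℂ (Fin (n + 1) → ℂ) => hilbert (symbolicPower m P) d = h)

theorem of_ind {k r m d : ℕ}
    (h : Pool.Agent.Y55.Col.Ind k (d + 1) (Multiset.replicate r m)) :
    IsGeneralHilbertValue (k + 1) r m d ((r * (k + 1 + m - 1).choose (k + 1) : ℕ) : ℤ) ∧
      r * (k + 1 + m - 1).choose (k + 1) ≤ (k + 1 + d).choose (k + 1) := by
  rw [← Run7.h526.BW.map_const_replicate] at h
  have h1 := Pool.Agent.Y55.Col.general_of_ind h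
  simp only [Finset.sum_const, Finset.card_univ, Fintype.card_fin, smul_eq_mul] at h1
  have e : k + 1 + m - 1 = m + k := by omega
  have e2 : k + 1 + d = d + (k + 1) := by omega
  rw [e, e2]
  obtain ⟨p, hp, -⟩ := (h1.and h1).exists
  refine ⟨?_, by omega⟩
  obtain ⟨D, hD, h⟩ := h1
  refine generally_of_poly D hD fun v hv hp => ?_
  have h2 : Module.finrank ℂ (Pool.Agent.H938R2.forms (k + 1 + 1) d (fun _ => m) v) +
      r * (m + k).choose (k + 1) = (d + (k + 1)).choose (k + 1) := h v hp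
  unfold hilbert symbolicPower
  rw [Pool.Agent.TH176.FB.forms_eq_symbolic v hv,
    Pool.Agent.TH206.Fro.dim_thm (k + 2) d ℂ, Pool.Agent.TH176.FB.card_Mon_choose (k + 1) d]
  omega

theorem of_emp {k r m d : ℕ}
    (h : Pool.Agent.Y55.Col.Emp (k + 1) (d + 1) (Multiset.replicate r m)) :
    IsGeneralHilbertValue (k + 1) r m d (((k + 1 + d).choose (k + 1) : ℕ) : ℤ) ∧
      (k + 1 + d).choose (k + 1) ≤ r * (k + 1 + m - 1).choose (k + 1) := by
  rw [← Run7.h526.BW.map_const_replicate] at h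
  have h1 := Pool.Agent.Y55.Col.general_of_emp h
  have e : k + 1 + m - 1 = m + k := by omega
  have e2 : k + 1 + d = d + (k + 1) := by omega
  rw [e, e2]
  constructor
  · obtain ⟨D, hD, h⟩ := h1
    refine generally_of_poly D hD fun v hv hp => ?_
    have h2 := h v hp
    unfold hilbert symbolicPower
    rw [Pool.Agent.TH176.FB.forms_eq_symbolic v hv, h2, finrank_bot,
      Pool.Agent.TH206.Fro.dim_thm (k + 2) d ℂ, Pool.Agent.TH176.FB.card_Mon_choose (k + 1) d]
    omega
  · have h2 := Pool.Agent.TH176.FB.Fat.max_of_bot h1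
    obtain ⟨p, hp, hp2⟩ := (h1.and h2).exists
    rw [hp, finrank_bot] at hp2
    omega

/-- Let `n ≥ 2`, `r ≥ 3 ^ n`, `m ≥ 1` and `ρ = r ^ (1 / n)`.
If `d ≥ ρ (m + (n - 1) / 2) + 110 n ^ 2`, then `H_{n,r,m}(d) = r * binom (n + m - 1) n`.
If `d ≤ ρ (m + (n - 1) / 2) - 110 n ^ 2 (1 + (r / m) ^ (1 / n))` or
`d ≤ ρ (m - 1 + (n!) ^ (1 / n)) - 110 n ^ 2`, then `H_{n,r,m}(d) = binom (n + d) n`.
In both cases the value is `min (binom (n + d) n) (r * binom (n + m - 1) n)`. -/
theorem result (n r m d : ℕ) (hn : 2 ≤ n) (hr : 3 ^ n ≤ r) (hm : 1 ≤ m) :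
    ((r : ℝ) ^ (1 / (n : ℝ)) * ((m : ℝ) + ((n : ℝ) - 1) / 2) + 110 * (n : ℝ) ^ 2 ≤ d →
      IsGeneralHilbertValue n r m d (r * (n + m - 1).choose n) ∧
        r * (n + m - 1).choose n ≤ (n + d).choose n) ∧
    ((d : ℝ) ≤ (r : ℝ) ^ (1 / (n : ℝ)) * ((m : ℝ) + ((n : ℝ) - 1) / 2) -
          110 * (n : ℝ) ^ 2 * (1 + ((r : ℝ) / m) ^ (1 / (n : ℝ))) ∨
        (d : ℝ) ≤ (r : ℝ) ^ (1 / (n : ℝ)) * ((m : ℝ) - 1 + (n.factorial : ℝ) ^ (1 / (n : ℝ))) -
          110 * (n : ℝ) ^ 2 →
      IsGeneralHilbertValue n r m d ((n + d).choose n) ∧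
        (n + d).choose n ≤ r * (n + m - 1).choose n) := by
  obtain ⟨k, rfl⟩ : ∃ k, n = k + 1 := ⟨n - 1, by omega⟩
  have hk : 1 ≤ k := by omega
  have hroot : ∀ x : ℝ, 0 ≤ x → (x ^ (1 / ((k + 1 : ℕ) : ℝ))) ^ (k + 1) = x := by
    intro x hx
    rw [← Real.rpow_natCast, ← Real.rpow_mul hx, one_div_mul_cancel (by positivity), Real.rpow_one]
  have hr0 : (0 : ℝ) ≤ r := Nat.cast_nonneg r
  have hm0 : (0 : ℝ) ≤ m := Nat.cast_nonneg m
  have ek : ((k + 1 : ℕ) : ℝ) - 1 = k := by push_cast; ring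
  have ek' : ((k + 1 : ℕ) : ℝ) = (k : ℝ) + 1 := by push_cast; ring
  obtain ⟨ρ, hρ⟩ : ∃ ρ : ℝ, ρ = (r : ℝ) ^ (1 / ((k + 1 : ℕ) : ℝ)) := ⟨_, rfl⟩
  have hρ0 : 0 ≤ ρ := by rw [hρ]; positivity
  have hρn : ρ ^ (k + 1) = r := by rw [hρ]; exact hroot _ hr0
  rw [← hρ]
  constructor
  · intro hd
    rw [ek, ek'] at hd
    have h := of_ind (Run7.h526.BW.main1 hk hr hm hρ0 hρn hd)
    push_cast at h ⊢
    exact h
  · intro hd
    have h : Pool.Agent.Y55.Col.Emp (k + 1) (d + 1) (Multiset.replicate r m) := by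
      rcases hd with hd | hd
      · rw [Real.div_rpow hr0 hm0, ← hρ, ek] at hd
        refine Run7.h526.BW.main3 hk hr hm hρ0 hρn (μ := (m : ℝ) ^ (1 / ((k + 1 : ℕ) : ℝ)))
          (by positivity) (hroot _ hm0) ?_
        rw [ek'] at hd ⊢
        exact hd
      · refine Run7.h526.BW.main2 hk hr hm hρ0 hρn
          (f := ((k + 1).factorial : ℝ) ^ (1 / ((k + 1 : ℕ) : ℝ))) (by positivity)
          (hroot _ (Nat.cast_nonneg _)) ?_
        rw [ek'] at hd ⊢
        exact hd
    exact of_emp h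

end Pool.Agent.Results.MP_b56c98_ag.BoundedWindow
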