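import Mathlib
import Pool.Agent.Results.MP_b56c98_ag.PlaneAllDegrees
import Pool.Agent.Run7.h388.RM.Joint
import Pool.Agent.Run7.h388.RM.Cov

set_option autoImplicit false

/-!
# Random multiplicities

A random multiplicity has a finitely supported distribution `μ`. `Always Q` says that all random numbers for which the exponential
sums `E e(θ m)` at certain finitely many irrational `θ` and the probability of small values are small have the property `Q`.

(1) With a probability of at least `10 ^ (-65)` the random multiplicity `m` is good for ALL numbers of points at once: for EVERY `r ≥ 10`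
and EVERY degree `d` the Hilbert function `H_{2,r,m}(d)` is `min (binom (d + 2) 2) (r * binom (m + 1) 2)`.

(2) With a probability of at least `0.815` this holds in every degree at once for `r = 10`, `11`, `13`, `15`, `21`, all squares
`r ≥ 16` and all `r ≥ 37`. For a single `r ≥ 10` it fails with a probability of at most `bad r + δ`; `bad r < 1`, `bad 10 < 0.163`.

(3) (`CoversMore`) These bounds hold in particular for all large terms of all sequences of random numbers whose exponential sums at the
irrational frequencies tend to zero and which do not concentrate on a single number; for random numbers with `k ≥ k₀` independent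
digits; for the random members of very thin families of residues; for the positions of random walks with `k ≥ k₀` independent steps
none of which is almost constant; for the binomial laws with `k ≥ k₀` trials; for the random members of progressions with a given
difference (for instance intervals) of length `≥ L₀`, uniformly in the first term; and they remain true if an arbitrary independent
random number is added.

Proof. The plane systems and the windows are those of helper141 (`Pool.Agent.N141.SG`) and, for eleven and fifteen points, of
`Pool.Agent.N388.EFW`; the master theorem for random integers is `Pool.Agent.N794.DG` (starting tree); the joint statement (2), random walks, binomial laws and independent perturbations are new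
(`Pool.Agent.Run7.h388.RM`).
-/

namespace Pool.Agent.Results.MP_b56c98_ag.RandomMultiplicities

open MvPolynomial
open Pool.Agent.N794.DG (Always meas)
open Pool.Agent.Run7.h388.RM (CoversMore Most)
open Pool.Agent.Results.MP_b56c98_ag.PlaneAllDegrees (PlaneFormula formula_of)

/-- `H_{2,r,m}(d) = min (binom (2 + d) 2) (r * binom (2 + m - 1) 2)` for all degrees `d`, for the
points of one nonempty open set of `r`-tuples. -/
def AllDegrees (r m : ℕ) : Prop := PlaneFormula r m fun _ => True

/-- The multiplicity `m ≥ 1` is settled for every number `r ≥ 10` of points. -/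
def Holds (m : ℕ) : Prop := 1 ≤ m ∧ ∀ r : ℕ, 10 ≤ r → AllDegrees r m

open Classical in
/-- The bound for the proportion of the bad multiplicities for `r` points. -/
noncomputable def bad (r : ℕ) : ℝ :=
  if 37 ≤ r ∨ r = 13 ∨ r = 21 ∨ IsSquare r then 0
  else if r = 11 ∨ r = 15 then (√(r : ℝ) - 3) ^ 2 / (6 * (√(r : ℝ) + 3))
  else (min (√(r : ℝ) - 3) (2 / 3 + 9 / (4 * √(r : ℝ))) +
    min (√(r : ℝ) - 3) (2 / 3 + 1 / (4 * √(r : ℝ)))) / 2

theorem allDegrees_of {r m : ℕ} (h : Pool.Agent.N141.SG.Ex r m) : AllDegrees r m := by
  obtain ⟨F, hF, hF'⟩ := h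
  exact formula_of ⟨F, hF, fun P hP d _ => hF' P hP d⟩

theorem holds_of {m : ℕ} (hm : 1 ≤ m) (h : Pool.Agent.N141.SG.Tgt (m : ℕ)) : Holds m :=
  ⟨hm, fun _ hr => allDegrees_of (Pool.Agent.N141.SG.every h hm hr)⟩

/-- **Main result.** -/
theorem result :
    (Always fun μ => 1 / 10 ^ 65 ≤ meas μ Holds) ∧
    (Always fun μ => 0.815 ≤ meas μ fun m => 1 ≤ m ∧ ∀ r : ℕ, 10 ≤ r → Most r → AllDegrees r m) ∧
    (∀ r : ℕ, 10 ≤ r → ∀ δ : ℝ, 0 < δ → Always fun μ => meas μ (fun m => ¬ AllDegrees r m) ≤ bad r + δ) ∧
    (∀ r : ℕ, 10 ≤ r → bad r < 1) ∧
    (bad 10 < 0.163 ∧ bad 11 < 0.0027 ∧ bad 12 < 0.465 ∧ bad 14 < 0.738 ∧ bad 15 < 0.0185) ∧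
    CoversMore := by
  refine ⟨?_, ?_, fun r hn δ hδ => ?_, fun r hn => Pool.Agent.Run7.h388.RM.badS_lt hn,
    Pool.Agent.Run7.h388.RM.badS_vals, Pool.Agent.Run7.h388.RM.coversMore⟩
  · exact Pool.Agent.N794.DG.always_tgt.mono fun μ hμ h =>
      h.trans (Pool.Agent.N794.DG.meas_mono hμ fun m hm => holds_of hm.1 hm.2)
  · exact Pool.Agent.Run7.h388.RM.always_most.mono fun μ hμ h =>
      h.trans (Pool.Agent.N794.DG.meas_mono hμ fun m hm => ⟨hm.1, fun r hn hmost => allDegrees_of (hm.2 r hn hmost)⟩)
  · exact (Pool.Agent.Run7.h388.RM.always_sharp hn hδ).mono fun μ hμ h =>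
      (Pool.Agent.N794.DG.meas_mono hμ fun m hm h1 => hm (allDegrees_of h1)).trans h

end Pool.Agent.Results.MP_b56c98_ag.RandomMultiplicities
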